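import Pool.Agent.Helper52.VD.MC

open MeasureTheory Set Filter Topology
open scoped ENNReal

noncomputable section

namespace VD.M_M3

open VD.MC

theorem ae_snd_ne : ∀ᵐ Y : ℝ × E3, Y.2 ≠ 0 := by
  have h : volume ((univ : Set ℝ) ×ˢ ({0} : Set E3)) = 0 := by
    rw [Measure.volume_eq_prod, Measure.prod_prod, measure_singleton, mul_zero]
  filter_upwards [measure_eq_zero_iff_ae_notMem.mp h] with Y hY h0
  exact hY ⟨mem_univ _, h0⟩

theorem ae_comp_rf (l : ℝ) {p : ℝ × E3 → Prop} (h : ∀ᵐ Y, p Y) : ∀ᵐ Y, p (rf l Y) :=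
  (mp_rf l).quasiMeasurePreserving.ae h

/-- scalar inequality 1 -/
theorem scal1 {r R n c : ℝ} (hr : 0 < r) (hrn : r ≤ n) (hc : 0 < c) (hR0 : 0 < R)
    (hR : r ^ 2 + c ≤ R ^ 2) : c / (2 * (n ^ 2 + c) * n) ≤ r⁻¹ - R⁻¹ := by
  have hn : 0 < n := lt_of_lt_of_le hr hrn
  set s := Real.sqrt (r ^ 2 + c) with hs
  have hs2 : s ^ 2 = r ^ 2 + c := Real.sq_sqrt (by positivity)
  have hs0 : 0 < s := Real.sqrt_pos.mpr (by positivity)
  have hsr : r < s := by
    apply lt_of_pow_lt_pow_left₀ 2 hs0.le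
    rw [hs2]; linarith
  have hsR : s ≤ R := by
    apply le_of_sq_le_sq _ hR0.le
    rw [hs2]; exact hR
  have h1 : R⁻¹ ≤ s⁻¹ := inv_anti₀ hs0 hsR
  have h2 : c / (2 * s ^ 2 * r) ≤ r⁻¹ - s⁻¹ := by
    rw [inv_sub_inv hr.ne' hs0.ne', div_le_div_iff₀ (by positivity) (by positivity)]
    have h3 : c = (s - r) * (s + r) := by nlinarith
    rw [h3]
    have h4 : 0 < s - r := by linarith
    have h5 : 0 ≤ (s - r) * (r * s) := by positivity
    nlinarith
  have h3 : c / (2 * (n ^ 2 + c) * n) ≤ c / (2 * s ^ 2 * r) := by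
    apply div_le_div_of_nonneg_left hc.le (by positivity)
    rw [hs2]
    have h5 : r ^ 2 ≤ n ^ 2 := by nlinarith
    have h6 : 2 * (r ^ 2 + c) ≤ 2 * (n ^ 2 + c) := by linarith
    exact mul_le_mul h6 hrn hr.le (by positivity)
  linarith

/-- scalar inequality 2 -/
theorem scal2 {a b d : ℝ} (hb : 0 < b) (hab : b ≤ a) (hd : 0 ≤ d) (hda : d ^ 2 ≤ a) :
    d / (a * b) ≤ (Real.sqrt b ^ 3)⁻¹ := by
  have ha : 0 < a := lt_of_lt_of_le hb hab
  set u := Real.sqrt a with hu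
  set v := Real.sqrt b with hv
  have hu2 : u ^ 2 = a := Real.sq_sqrt ha.le
  have hv2 : v ^ 2 = b := Real.sq_sqrt hb.le
  have hu0 : 0 < u := Real.sqrt_pos.mpr ha
  have hv0 : 0 < v := Real.sqrt_pos.mpr hb
  have huv : v ≤ u := Real.sqrt_le_sqrt hab
  have hdu : d ≤ u := by
    apply le_of_sq_le_sq _ hu0.le
    rw [hu2]; exact hda
  rw [← hu2, ← hv2, inv_eq_one_div, div_le_div_iff₀ (by positivity) (by positivity), one_mul]
  have h1 : d * v ≤ u * u := mul_le_mul hdu huv hv0.le hu0.le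
  nlinarith [sq_nonneg v, mul_le_mul_of_nonneg_right h1 (sq_nonneg v)]

theorem qd_le {n : ℝ} {X Y : ℝ × E3} (h1 : |X.1| ≤ n) (h2 : ‖X.2‖ ≤ n) (h3 : |Y.1| ≤ n)
    (h4 : ‖Y.2‖ ≤ n) : qd X Y ≤ 8 * n ^ 2 := by
  unfold qd
  have h5 : |X.1 - Y.1| ≤ 2 * n := by
    have := abs_sub X.1 Y.1
    linarith
  have h6 : ‖X.2 - Y.2‖ ≤ 2 * n := by
    have := norm_sub_le X.2 Y.2
    linarith
  have h7 : (X.1 - Y.1) ^ 2 ≤ (2 * n) ^ 2 := by
    rw [← sq_abs]
    exact pow_le_pow_left₀ (abs_nonneg _) h5 2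
  have h8 : ‖X.2 - Y.2‖ ^ 2 ≤ (2 * n) ^ 2 := pow_le_pow_left₀ (norm_nonneg _) h6 2
  linarith

/-- positive part -/
theorem J_PS {A : Set (ℝ × ℝ)} {n l1 l : ℝ} (hl1 : 0 < l1) (hl : l1 ≤ l) (hs : A ⊆ Box n)
    {X Y : ℝ × E3} (hX : l < X.2 0) (hXn : rad X ∈ Box n) (h2 : rf l X ≠ Y) (hY : Y ∈ PS A) :
    (X.2 0 - l) * (l1 / (16 * n ^ 4) * (4 * l1 ^ 2 / (2 * (n ^ 2 + 4 * l1 ^ 2) * n))) ≤
      J A l X Y := by
  obtain ⟨hY0, hYA⟩ := hY
  have hYB := hs hYA
  have h0 : 0 < ‖Y.2‖ := hYB.2.1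
  have hYn : ‖Y.2‖ ≤ n := hYB.2.2
  have hn : 0 < n := lt_of_lt_of_le h0 hYn
  have h1 : X ≠ Y := by
    intro h; rw [h] at hX; linarith
  have hlt := norm_lt (l := l) (by linarith) (Y := Y) (by linarith)
  have hf : 4 * l1 ^ 2 / (2 * (n ^ 2 + 4 * l1 ^ 2) * n) ≤ fA A Y - fA A (rf l Y) := by
    refine le_trans ?_ (fdiff_mem hYA)
    apply scal1 h0 hYn (by positivity) (by linarith)
    rw [norm_rf]
    have h3 : l1 * l1 ≤ l * (l - Y.2 0) := mul_le_mul hl (by linarith) hl1.le (by linarith)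
    nlinarith
  have hK : (X.2 0 - l) * (l1 / (16 * n ^ 4)) ≤ (qd (rf l X) Y)⁻¹ - (qd X Y)⁻¹ := by
    rw [K_eq h1 h2]
    have q1 := qd_pos h1
    have q2 := qd_pos h2
    have hd : 0 < X.2 0 - l := by linarith
    have hq1 : qd X Y ≤ 8 * n ^ 2 := qd_le hXn.1 hXn.2.2 hYB.1 hYn
    have hq2 : qd (rf l X) Y ≤ 8 * n ^ 2 := by
      rw [qd_rf']
      have : 0 ≤ (X.2 0 - l) * (l - Y.2 0) := mul_nonneg hd.le (by linarith)
      nlinarith
    have h3 : 4 * (X.2 0 - l) * l1 / (8 * n ^ 2 * (8 * n ^ 2)) ≤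
        4 * (X.2 0 - l) * (l - Y.2 0) / (qd X Y * qd (rf l X) Y) := by
      have h31 : 4 * (X.2 0 - l) * l1 ≤ 4 * (X.2 0 - l) * (l - Y.2 0) :=
        mul_le_mul_of_nonneg_left (by linarith) (by positivity)
      have h32 : qd X Y * qd (rf l X) Y ≤ 8 * n ^ 2 * (8 * n ^ 2) :=
        mul_le_mul hq1 hq2 q2.le (by positivity)
      have h33 : 0 ≤ 4 * (X.2 0 - l) * (l - Y.2 0) := by
        have : 0 ≤ l - Y.2 0 := by linarith
        positivity
      exact div_le_div₀ h33 h31 (by positivity) h32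
    refine le_trans (le_of_eq ?_) h3
    field_simp
    ring
  have hκ : 0 < 4 * l1 ^ 2 / (2 * (n ^ 2 + 4 * l1 ^ 2) * n) := by positivity
  have hd : 0 < X.2 0 - l := by linarith
  have hK0 : 0 < (X.2 0 - l) * (l1 / (16 * n ^ 4)) := by positivity
  unfold J
  calc (X.2 0 - l) * (l1 / (16 * n ^ 4) * (4 * l1 ^ 2 / (2 * (n ^ 2 + 4 * l1 ^ 2) * n)))
      = (4 * l1 ^ 2 / (2 * (n ^ 2 + 4 * l1 ^ 2) * n)) * ((X.2 0 - l) * (l1 / (16 * n ^ 4))) := by
        ring
    _ ≤ (fA A Y - fA A (rf l Y)) * ((qd (rf l X) Y)⁻¹ - (qd X Y)⁻¹) :=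
        mul_le_mul hf hK hK0.le (by linarith)

/-- weight -/
def w (X Z : ℝ × E3) : ℝ := (Real.sqrt (qd X Z) ^ 3)⁻¹

theorem w_nonneg (X Z : ℝ × E3) : 0 ≤ w X Z := by unfold w; positivity

/-- negative part -/
theorem J_D {A : Set (ℝ × ℝ)} {l1 l : ℝ} (hl1 : 0 < l1) (hl : l1 ≤ l)
    {X Y : ℝ × E3} (hX : l < X.2 0) (h2 : rf l X ≠ Y) (hY : rf l Y ∈ Dset A l) :
    -(4 * (X.2 0 - l) / l1 * w X (rf l Y)) ≤ J A l X Y := by
  obtain ⟨hY0, hYA, hYn⟩ := hY
  rw [rf_rf] at hYn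
  rw [rf0] at hY0
  have hYl : Y.2 0 < l := by linarith
  have h1 : X ≠ Y := by
    intro h; rw [h] at hX; linarith
  have hd : 0 < X.2 0 - l := by linarith
  have hnorm : l1 ≤ ‖(rf l Y).2‖ := by
    have := c0_le_norm (rf l Y).2
    rw [rf0] at this
    linarith
  have hinv : ‖(rf l Y).2‖⁻¹ ≤ l1⁻¹ := inv_anti₀ hl1 hnorm
  have hb : qd (rf l X) Y = qd X (rf l Y) := by rw [qd_rf, qd_rf']
  have q1 := qd_pos h1
  have q2 := qd_pos h2
  have hab : qd (rf l X) Y ≤ qd X Y := by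
    rw [qd_rf']
    have : 0 ≤ (X.2 0 - l) * (l - Y.2 0) := mul_nonneg hd.le (by linarith)
    nlinarith
  have hda : (l - Y.2 0) ^ 2 ≤ qd X Y := by
    rw [qd_eq]
    have : (l - Y.2 0) ^ 2 ≤ (X.2 0 - Y.2 0) ^ 2 :=
      pow_le_pow_left₀ (by linarith) (by linarith) 2
    nlinarith [sq_nonneg (X.1 - Y.1), sq_nonneg (X.2 1 - Y.2 1), sq_nonneg (X.2 2 - Y.2 2)]
  have hs := scal2 q2 hab (by linarith : 0 ≤ l - Y.2 0) hda
  have hK : (qd (rf l X) Y)⁻¹ - (qd X Y)⁻¹ ≤ 4 * (X.2 0 - l) * w X (rf l Y) := by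
    rw [K_eq h1 h2]
    unfold w
    rw [← hb]
    calc 4 * (X.2 0 - l) * (l - Y.2 0) / (qd X Y * qd (rf l X) Y)
        = 4 * (X.2 0 - l) * ((l - Y.2 0) / (qd X Y * qd (rf l X) Y)) := by ring
      _ ≤ 4 * (X.2 0 - l) * (Real.sqrt (qd (rf l X) Y) ^ 3)⁻¹ :=
          mul_le_mul_of_nonneg_left hs (by positivity)
  have hK0 := K_nonneg hX hYl h2
  unfold J
  rw [f_not hYn, f_mem hYA]
  have h5 : ‖(rf l Y).2‖⁻¹ * ((qd (rf l X) Y)⁻¹ - (qd X Y)⁻¹) ≤
      l1⁻¹ * (4 * (X.2 0 - l) * w X (rf l Y)) :=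
    mul_le_mul hinv hK hK0.le (by positivity)
  have h6 : l1⁻¹ * (4 * (X.2 0 - l) * w X (rf l Y)) =
      4 * (X.2 0 - l) / l1 * w X (rf l Y) := by field_simp
  rw [h6] at h5
  linarith

/-- all cases, near -/
theorem J_near {A : Set (ℝ × ℝ)} {n l1 l : ℝ} (hl1 : 0 < l1) (hl : l1 ≤ l) (hs : A ⊆ Box n)
    {X Y : ℝ × E3} (hX : l < X.2 0) (hXn : rad X ∈ Box n) (hYl : Y.2 0 < l) (h2 : rf l X ≠ Y) :
    (PS A).indicator (fun _ => (X.2 0 - l) * (l1 / (16 * n ^ 4) *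
        (4 * l1 ^ 2 / (2 * (n ^ 2 + 4 * l1 ^ 2) * n)))) Y ≤
      J A l X Y + 4 * (X.2 0 - l) / l1 * (Dset A l).indicator (w X) (rf l Y) := by
  have hd : 0 < X.2 0 - l := by linarith
  have hsO : A ⊆ Om := hs.trans (Box_subset_Om n)
  by_cases hD : rf l Y ∈ Dset A l
  · have hP : Y ∉ PS A := by
      intro hP
      have := hD.2.2
      rw [rf_rf] at this
      exact this hP.2
    rw [indicator_of_notMem hP, indicator_of_mem hD]
    have := J_D hl1 hl hX h2 hD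
    linarith
  · rw [indicator_of_notMem hD, mul_zero, add_zero]
    by_cases hP : Y ∈ PS A
    · rw [indicator_of_mem hP]
      exact J_PS hl1 hl hs hX hXn h2 hP
    · rw [indicator_of_notMem hP]
      exact J_nonneg (by linarith) hsO hX hYl h2 hD

theorem J_all {A : Set (ℝ × ℝ)} {n l1 l : ℝ} (hl1 : 0 < l1) (hl : l1 ≤ l) (hs : A ⊆ Box n)
    {X Y : ℝ × E3} (hX : l < X.2 0) (hXn : rad X ∈ Box n) (h1 : X ≠ Y) (h2 : rf l X ≠ Y) :
    (PS A).indicator (fun _ => (X.2 0 - l) * (l1 / (16 * n ^ 4) *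
        (4 * l1 ^ 2 / (2 * (n ^ 2 + 4 * l1 ^ 2) * n)))) Y ≤
      J A l X Y + 4 * (X.2 0 - l) / l1 * ((Dset A l).indicator (w X) (rf l Y) +
        (Dset A l).indicator (w X) Y) := by
  have hd : 0 < X.2 0 - l := by linarith
  have hnn : ∀ Z, 0 ≤ (Dset A l).indicator (w X) Z := fun Z =>
    indicator_nonneg (fun _ _ => w_nonneg X _) Z
  have hc : 0 < 4 * (X.2 0 - l) / l1 := by positivity
  rcases lt_trichotomy (Y.2 0) l with h | h | h
  · have := J_near hl1 hl hs hX hXn h h2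
    have h3 := mul_nonneg hc.le (hnn Y)
    linarith
  · have hP : Y ∉ PS A := by
      intro hP
      have := hP.1
      linarith
    rw [indicator_of_notMem hP]
    have hJ : J A l X Y = 0 := by
      unfold J
      have : qd (rf l X) Y = qd X Y := by rw [qd_rf', h]; ring
      rw [this]; ring
    rw [hJ, zero_add]
    exact mul_nonneg hc.le (add_nonneg (hnn _) (hnn _))
  · have hP : Y ∉ PS A := by
      intro hP
      have := hP.1
      linarith
    rw [indicator_of_notMem hP]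
    have h3 : rf l X ≠ rf l Y := by
      intro h5
      apply h1
      have := congrArg (rf l) h5
      rwa [rf_rf, rf_rf] at this
    have h4 := J_near hl1 hl hs (Y := rf l Y) hX hXn (by rw [rf0]; linarith) h3
    rw [J_rf, rf_rf] at h4
    have h5 : 0 ≤ (PS A).indicator (fun _ => (X.2 0 - l) * (l1 / (16 * n ^ 4) *
        (4 * l1 ^ 2 / (2 * (n ^ 2 + 4 * l1 ^ 2) * n)))) (rf l Y) := by
      by_cases hP' : rf l Y ∈ PS A
      · rw [indicator_of_mem hP']
        have hn : 0 < n := lt_of_lt_of_le (hs hP'.2).2.1 (hs hP'.2).2.2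
        positivity
      · rw [indicator_of_notMem hP']
    have h6 := mul_nonneg hc.le (hnn (rf l Y))
    linarith

end VD.M_M3

namespace VD

open VD.MC VD.M_M3

/-- gap lemma of the 4D moving plane argument -/
theorem mM3 (hK0 : StK0) (hK1 : StK1) (hK2 : StK2) (hM0 : StM0) (hM1 : StM1) (hM2 : StM2) : StM3 := by
  intro A n W hA hs hv hW1 hW2 l1 hl1
  have hsO : A ⊆ Om := hs.trans (Box_subset_Om n)
  obtain ⟨C, hC, hM⟩ := hM2
  have hn : 0 < n := by
    by_contra hn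
    have : A = ∅ := by
      ext z
      constructor
      · intro hz
        have h1 := (hs hz).2.1
        have h2 := (hs hz).2.2
        linarith
      · intro h; exact absurd h (notMem_empty z)
    rw [this] at hv
    simp at hv
  have hPpos := vol_PS_pos hM0 hA hsO hv
  have hPlt : volume (PS A) < ∞ :=
    lt_of_le_of_lt (measure_mono (fun Y hY => hY.2)) (vol_rad_lt hM0 hA hs)
  set P := (volume (PS A)).toReal with hPdef
  have hP : 0 < P := ENNReal.toReal_pos hPpos.ne' hPlt.ne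
  set c1 := l1 / (16 * n ^ 4) * (4 * l1 ^ 2 / (2 * (n ^ 2 + 4 * l1 ^ 2) * n)) with hc1
  have hc1p : 0 < c1 := by positivity
  set c' := c1 * P * l1 / 8 with hc'
  have hc'p : 0 < c' := by positivity
  set R := c' / (2 * C) with hRd
  have hR : 0 < R := by positivity
  refine ⟨R ^ 3 * (c' / 2), by positivity, ?_⟩
  intro l hl
  by_cases hD0 : volume (Dset A l) = 0
  · exact Or.inl hD0
  right
  have hDlt : volume (Dset A l) < ∞ :=
    lt_of_le_of_lt (measure_mono (fun Y hY => hY.2.1)) (vol_rad_lt hM0 hA hs)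
  have hDm := meas_D hA l
  -- a good point
  obtain ⟨X, hXD, hX1, hX2⟩ : ∃ X ∈ Dset A l, W ≤ phi A (rad X) ∧ phi A (rad (rf l X)) ≤ W := by
    by_contra hcon
    push Not at hcon
    apply hD0
    apply measure_eq_zero_iff_ae_notMem.mpr
    filter_upwards [null_pull hM0 hW1, ae_comp_rf l (null_pull hM0 hW2),
      ae_comp_rf l ae_snd_ne] with X g1 g2 g3 hXD
    have g4 := hcon X hXD (g1 hXD.2.1)
    have hXB := hs hXD.2.1
    have g5 : rad (rf l X) ∈ Box n := by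
      refine ⟨hXB.1, norm_pos_iff.mpr g3, ?_⟩
      show ‖(rf l X).2‖ ≤ n
      have h6 : ‖(rf l X).2‖ ^ 2 ≤ ‖X.2‖ ^ 2 := by
        rw [norm_rf]
        have : 0 ≤ l * (X.2 0 - l) := mul_nonneg (by linarith) (by linarith [hXD.1])
        nlinarith
      exact le_trans (le_of_sq_le_sq h6 (norm_nonneg _)) hXB.2.2
    have g6 := g2 g5 hXD.2.2
    linarith
  have hXl : l < X.2 0 := hXD.1
  have hd : 0 < X.2 0 - l := by linarith
  have hXn := hs hXD.2.1
  obtain ⟨iJ, eJ⟩ := J_int hK2 hM1 hA hsO (vol_lt_top hs) l X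
  have hJ0 : ∫ Y, J A l X Y ≤ 0 := by
    rw [eJ]
    have : phi A (rad (rf l X)) - phi A (rad X) ≤ 0 := by linarith
    have hpi : 0 < 8 * Real.pi ^ 2 := by positivity
    nlinarith
  -- integrability of g
  have hwm : Measurable (w X) := by
    unfold w
    exact (((continuous_qd X).sqrt).pow 3).measurable.inv
  have hgm : Measurable ((Dset A l).indicator (w X)) := hwm.indicator hDm
  have hgnn : ∀ Z, 0 ≤ (Dset A l).indicator (w X) Z := fun Z =>
    indicator_nonneg (fun _ _ => w_nonneg X _) Z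
  have hgl : ∫⁻ Z, ENNReal.ofReal ((Dset A l).indicator (w X) Z) ≤
      ENNReal.ofReal (C * R) + ENNReal.ofReal ((R ^ 3)⁻¹) * volume (Dset A l) := by
    refine le_trans (le_of_eq ?_) (hM (Dset A l) X R hDm hR)
    rw [← lintegral_indicator hDm]
    congr 1
    ext Z
    by_cases hZ : Z ∈ Dset A l
    · rw [indicator_of_mem hZ, indicator_of_mem hZ]; rfl
    · rw [indicator_of_notMem hZ, indicator_of_notMem hZ]; simp
  have hrhs : ENNReal.ofReal (C * R) + ENNReal.ofReal ((R ^ 3)⁻¹) * volume (Dset A l) < ∞ :=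
    ENNReal.add_lt_top.mpr ⟨ENNReal.ofReal_lt_top, ENNReal.mul_lt_top ENNReal.ofReal_lt_top hDlt⟩
  have ig : Integrable ((Dset A l).indicator (w X)) := by
    refine ⟨hgm.aestronglyMeasurable, ?_⟩
    rw [hasFiniteIntegral_iff_ofReal (Filter.Eventually.of_forall hgnn)]
    exact lt_of_le_of_lt hgl hrhs
  have hgi : ∫ Z, (Dset A l).indicator (w X) Z ≤ C * R + (R ^ 3)⁻¹ * (volume (Dset A l)).toReal := by
    rw [integral_eq_lintegral_of_nonneg_ae (Filter.Eventually.of_forall hgnn)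
      hgm.aestronglyMeasurable]
    have h := ENNReal.toReal_mono hrhs.ne hgl
    refine le_trans h (le_of_eq ?_)
    rw [ENNReal.toReal_add ENNReal.ofReal_ne_top
      (ENNReal.mul_lt_top ENNReal.ofReal_lt_top hDlt).ne, ENNReal.toReal_mul,
      ENNReal.toReal_ofReal (by positivity), ENNReal.toReal_ofReal (by positivity)]
  have igr := integrable_comp_rf l ig
  have egr := integral_comp_rf l ((Dset A l).indicator (w X))
  have iP : Integrable ((PS A).indicator (fun _ => (X.2 0 - l) * c1)) := by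
    rw [integrable_indicator_iff (meas_PS hA)]
    exact integrableOn_const hPlt.ne
  have eP : ∫ Y, (PS A).indicator (fun _ => (X.2 0 - l) * c1) Y = P * ((X.2 0 - l) * c1) := by
    rw [integral_indicator (meas_PS hA), setIntegral_const, smul_eq_mul]
    rfl
  have isum : Integrable (fun Y => (Dset A l).indicator (w X) (rf l Y) +
      (Dset A l).indicator (w X) Y) := igr.add ig
  have isum2 : Integrable (fun Y => 4 * (X.2 0 - l) / l1 * ((Dset A l).indicator (w X) (rf l Y) +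
      (Dset A l).indicator (w X) Y)) := isum.const_mul _
  have hmain : P * ((X.2 0 - l) * c1) ≤ ∫ Y, J A l X Y +
      4 * (X.2 0 - l) / l1 * ((Dset A l).indicator (w X) (rf l Y) +
      (Dset A l).indicator (w X) Y) := by
    rw [← eP]
    apply integral_mono_ae iP (iJ.add isum2)
    filter_upwards [ae_ne X, ae_ne (rf l X)] with Y h1 h2
    exact J_all hl1 hl hs hXl hXn h1 h2
  rw [integral_add iJ isum2, integral_const_mul, integral_add igr ig, egr] at hmain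
  set I := ∫ Z, (Dset A l).indicator (w X) Z with hI
  have h3 : P * c1 ≤ 8 / l1 * I := by
    have h4 : (X.2 0 - l) * (P * c1) ≤ (X.2 0 - l) * (8 / l1 * I) := by
      have h5 : 4 * (X.2 0 - l) / l1 * (I + I) = (X.2 0 - l) * (8 / l1 * I) := by ring
      rw [h5] at hmain
      nlinarith
    exact le_of_mul_le_mul_left h4 hd
  have h4 : c' ≤ I := by
    rw [hc']
    have h5 : 8 / l1 * I = 8 * I / l1 := by ring
    rw [h5, le_div_iff₀ hl1] at h3
    rw [div_le_iff₀ (by norm_num)]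
    nlinarith
  have h5 : c' ≤ c' / 2 + (R ^ 3)⁻¹ * (volume (Dset A l)).toReal := by
    have h6 : C * R = c' / 2 := by rw [hRd]; field_simp
    rw [← h6]
    exact le_trans h4 hgi
  have h6 : R ^ 3 * (c' / 2) ≤ (volume (Dset A l)).toReal := by
    have h7 : c' / 2 ≤ (R ^ 3)⁻¹ * (volume (Dset A l)).toReal := by linarith
    have h8 := mul_le_mul_of_nonneg_left h7 (by positivity : 0 ≤ R ^ 3)
    have h9 : R ^ 3 * ((R ^ 3)⁻¹ * (volume (Dset A l)).toReal) = (volume (Dset A l)).toReal := by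
      field_simp
    rw [h9] at h8
    exact h8
  exact (ENNReal.ofReal_le_iff_le_toReal hDlt.ne).mpr h6

end VD
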