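import Pool.Agent.Helper52.VD.MC

open MeasureTheory Set Filter Topology
open scoped ENNReal

noncomputable section

namespace VD.M_M5

open VD.MC

theorem J_plane {A : Set (ℝ × ℝ)} {l : ℝ} {X Y : ℝ × E3} (h : Y.2 0 = l) : J A l X Y = 0 := by
  unfold J
  have : qd (rf l X) Y = qd X Y := by rw [qd_rf', h]; ring
  rw [this]; ring

theorem ae_notMem_rf {D : Set (ℝ × E3)} (l : ℝ) (hD : MeasurableSet D) (h : volume D = 0) :
    ∀ᵐ Y : ℝ × E3, rf l Y ∉ D := by
  have h1 : volume (rf l ⁻¹' D) = 0 := by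
    rw [(mp_rf l).measure_preimage hD.nullMeasurableSet, h]
  exact measure_eq_zero_iff_ae_notMem.mp h1

end VD.M_M5

namespace VD

open VD.MC VD.M_M5

/-- reflection comparison when Dset is null -/
theorem mM5 (hK0 : StK0) (hK1 : StK1) (hK2 : StK2) (hM0 : StM0) (hM1 : StM1) : StM5 := by
  intro A n l hA hs hv hl hD X hX
  have hsO : A ⊆ Om := hs.trans (Box_subset_Om n)
  obtain ⟨iJ, eJ⟩ := J_int hK2 hM1 hA hsO (vol_lt_top hs) l X
  have hnn : ∀ᵐ Y : ℝ × E3, 0 ≤ J A l X Y := by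
    filter_upwards [measure_eq_zero_iff_ae_notMem.mp hD, ae_notMem_rf l (meas_D hA l) hD,
      ae_ne X, ae_ne (rf l X)] with Y h1 h2 h3 h4
    rcases lt_trichotomy (Y.2 0) l with h | h | h
    · exact J_nonneg hl hsO hX h h4 h2
    · rw [J_plane h]
    · rw [← J_rf]
      refine J_nonneg hl hsO hX ?_ ?_ ?_
      · rw [rf0]; linarith
      · intro h5
        apply h3
        have := congrArg (rf l) h5
        rwa [rf_rf, rf_rf] at this
      · rw [rf_rf]; exact h1
  by_contra hc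
  rw [not_lt] at hc
  have h0 : ∫ Y, J A l X Y ≤ 0 := by
    rw [eJ]
    have : phi A (rad (rf l X)) - phi A (rad X) ≤ 0 := by linarith
    have hpi : 0 < 8 * Real.pi ^ 2 := by positivity
    nlinarith
  have h1 : ∫ Y, J A l X Y = 0 := le_antisymm h0 (integral_nonneg_of_ae hnn)
  have h2 := (integral_eq_zero_iff_of_nonneg_ae hnn iJ).mp h1
  have h3 : ∀ᵐ Y : ℝ × E3, Y ∉ PS A := by
    filter_upwards [h2, ae_ne (rf l X)] with Y hY h4 hP
    have h5 : 0 < J A l X Y := J_pos hl hsO hX (by linarith [hP.1]) h4 hP.2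
    rw [hY] at h5
    exact lt_irrefl _ h5
  have h4 := measure_eq_zero_iff_ae_notMem.mpr h3
  exact absurd h4 (vol_PS_pos hM0 hA hsO hv).ne'

end VD
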