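import Pool.Agent.Helper50.VD.St

open MeasureTheory Set Filter Topology
open scoped ENNReal

noncomputable section

namespace VD.M_M6

theorem norm_e0 : ‖e0‖ = 1 := by
  unfold e0; simp

theorem rad_smul {x t : ℝ} (ht : 0 ≤ t) : rad (x, t • e0) = (x, t) := by
  refine Prod.ext rfl ?_
  show ‖t • e0‖ = t
  rw [norm_smul, norm_e0, mul_one, Real.norm_eq_abs, abs_of_nonneg ht]

theorem smul_c0 (x t : ℝ) : (((x, t • e0) : ℝ × E3).2) 0 = t := by
  simp [e0]

theorem rf_smul (x s t : ℝ) : rf ((s + t) / 2) (x, t • e0) = (x, s • e0) := by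
  refine Prod.ext rfl ?_
  show t • e0 + (2 * ((s + t) / 2 - (t • e0) 0)) • e0 = s • e0
  have h : (t • e0) 0 = t := smul_c0 0 t
  rw [h, ← add_smul]
  congr 1
  ring

end VD.M_M6

namespace VD

open VD.M_M6

/-- monotonicity in x2 from gap + continuity -/
theorem mM6 (hM3 : StM3) (hM4 : StM4) (hM5 : StM5) : StM6 := by
  intro A n W hA hs hv h1 h2 x s t hs0 hst
  obtain ⟨hcont, hfin, hzero⟩ := hM4 A n hA hs
  have key : ∀ l : ℝ, 0 < l → volume (Dset A l) = 0 := by
    intro l hl
    by_contra hne
    obtain ⟨c, hc, hgap⟩ := hM3 A n W hA hs hv h1 h2 l hl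
    have hl1 : ENNReal.ofReal c ≤ volume (Dset A l) := (hgap l le_rfl).resolve_left hne
    have hv1 : c ≤ (volume (Dset A l)).toReal :=
      (ENNReal.ofReal_le_iff_le_toReal (hfin l).ne).mp hl1
    have hv2 : (volume (Dset A (max l n))).toReal = 0 := by
      rw [hzero _ (le_max_right _ _)]; rfl
    have hivt := intermediate_value_Icc' (le_max_left l n)
      (f := fun l : ℝ => (volume (Dset A l)).toReal) hcont.continuousOn
    have hmem : c / 2 ∈ Icc ((volume (Dset A (max l n))).toReal) ((volume (Dset A l)).toReal) := by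
      rw [hv2]; constructor <;> linarith
    obtain ⟨l', hl', he⟩ := hivt hmem
    have he' : (volume (Dset A l')).toReal = c / 2 := he
    rcases hgap l' hl'.1 with h | h
    · rw [h] at he'
      have : (0 : ℝ) = c / 2 := he'
      linarith
    · have := (ENNReal.ofReal_le_iff_le_toReal (hfin l').ne).mp h
      linarith
  have hl : 0 < (s + t) / 2 := by linarith
  have h := hM5 A n ((s + t) / 2) hA hs hv hl (key _ hl) (x, t • e0) (by rw [smul_c0]; linarith)
  rw [rf_smul, rad_smul hs0, rad_smul (by linarith)] at h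
  exact h

end VD
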