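import Pool.Agent.Helper50.VD.St

/-! # Common part of the modules M3 and M5 of MP_22dedb_an -/

open MeasureTheory Set Filter Topology
open scoped ENNReal

noncomputable section

namespace VD.MC

theorem nsq (v : E3) : ‖v‖ ^ 2 = v 0 ^ 2 + v 1 ^ 2 + v 2 ^ 2 := by
  rw [EuclideanSpace.norm_sq_eq, Fin.sum_univ_three]; simp

theorem rf0 (l : ℝ) (X : ℝ × E3) : (rf l X).2 0 = 2 * l - X.2 0 := by
  simp [rf, e0]; ring

theorem rf1 (l : ℝ) (X : ℝ × E3) : (rf l X).2 1 = X.2 1 := by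
  simp [rf, e0]

theorem rf2 (l : ℝ) (X : ℝ × E3) : (rf l X).2 2 = X.2 2 := by
  simp [rf, e0]

theorem rf_fst (l : ℝ) (X : ℝ × E3) : (rf l X).1 = X.1 := rfl

theorem rf_rf (l : ℝ) (X : ℝ × E3) : rf l (rf l X) = X := by
  refine Prod.ext rfl ?_
  ext i
  fin_cases i
  · show (rf l (rf l X)).2 0 = X.2 0
    rw [rf0, rf0]; ring
  · show (rf l (rf l X)).2 1 = X.2 1
    rw [rf1, rf1]
  · show (rf l (rf l X)).2 2 = X.2 2
    rw [rf2, rf2]

theorem norm_rf (l : ℝ) (X : ℝ × E3) :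
    ‖(rf l X).2‖ ^ 2 = ‖X.2‖ ^ 2 + 4 * l * (l - X.2 0) := by
  rw [nsq, nsq, rf0, rf1, rf2]; ring

theorem qd_eq (X Y : ℝ × E3) : qd X Y = (X.1 - Y.1) ^ 2 + ((X.2 0 - Y.2 0) ^ 2 +
    (X.2 1 - Y.2 1) ^ 2 + (X.2 2 - Y.2 2) ^ 2) := by
  unfold qd
  rw [nsq]
  simp

theorem qd_rf (l : ℝ) (X Y : ℝ × E3) :
    qd X (rf l Y) = qd X Y + 4 * (l - X.2 0) * (l - Y.2 0) := by
  rw [qd_eq, qd_eq, rf0, rf1, rf2, rf_fst]; ring

theorem qd_rf' (l : ℝ) (X Y : ℝ × E3) :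
    qd (rf l X) Y = qd X Y + 4 * (l - X.2 0) * (l - Y.2 0) := by
  rw [qd_eq, qd_eq, rf0, rf1, rf2, rf_fst]; ring

theorem qd_rf_rf (l : ℝ) (X Y : ℝ × E3) : qd (rf l X) (rf l Y) = qd X Y := by
  rw [qd_eq, qd_eq, rf0, rf1, rf2, rf_fst, rf0, rf1, rf2, rf_fst]; ring

theorem qd_nonneg (X Y : ℝ × E3) : 0 ≤ qd X Y := by unfold qd; positivity

theorem eq_of_qd {X Y : ℝ × E3} (h : qd X Y = 0) : X = Y := by
  rw [qd_eq] at h
  have h1 : (X.1 - Y.1) ^ 2 = 0 := by nlinarith [sq_nonneg (X.1 - Y.1), sq_nonneg (X.2 0 - Y.2 0), sq_nonneg (X.2 1 - Y.2 1), sq_nonneg (X.2 2 - Y.2 2)]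
  have h2 : (X.2 0 - Y.2 0) ^ 2 = 0 := by nlinarith [sq_nonneg (X.1 - Y.1), sq_nonneg (X.2 0 - Y.2 0), sq_nonneg (X.2 1 - Y.2 1), sq_nonneg (X.2 2 - Y.2 2)]
  have h3 : (X.2 1 - Y.2 1) ^ 2 = 0 := by nlinarith [sq_nonneg (X.1 - Y.1), sq_nonneg (X.2 0 - Y.2 0), sq_nonneg (X.2 1 - Y.2 1), sq_nonneg (X.2 2 - Y.2 2)]
  have h4 : (X.2 2 - Y.2 2) ^ 2 = 0 := by nlinarith [sq_nonneg (X.1 - Y.1), sq_nonneg (X.2 0 - Y.2 0), sq_nonneg (X.2 1 - Y.2 1), sq_nonneg (X.2 2 - Y.2 2)]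
  have g1 := sub_eq_zero.mp (pow_eq_zero_iff (two_ne_zero) |>.mp h1)
  have g2 := sub_eq_zero.mp (pow_eq_zero_iff (two_ne_zero) |>.mp h2)
  have g3 := sub_eq_zero.mp (pow_eq_zero_iff (two_ne_zero) |>.mp h3)
  have g4 := sub_eq_zero.mp (pow_eq_zero_iff (two_ne_zero) |>.mp h4)
  refine Prod.ext g1 ?_
  ext i
  fin_cases i
  · exact g2
  · exact g3
  · exact g4

theorem qd_pos {X Y : ℝ × E3} (h : X ≠ Y) : 0 < qd X Y :=
  lt_of_le_of_ne (qd_nonneg X Y) (fun h0 => h (eq_of_qd h0.symm))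

theorem continuous_rf (l : ℝ) : Continuous (rf l) := by
  unfold rf; fun_prop

theorem continuous_rad : Continuous rad := by
  unfold rad; fun_prop

theorem continuous_qd (X : ℝ × E3) : Continuous (qd X) := by
  unfold qd; fun_prop

/-- linear reflection -/
def lin : E3 ≃ₗᵢ[ℝ] E3 where
  toFun v := v - (2 * v 0) • e0
  invFun v := v - (2 * v 0) • e0
  map_add' v w := by
    ext i; fin_cases i <;> (simp [e0]; try ring)
  map_smul' c v := by
    ext i; fin_cases i <;> (simp [e0]; try ring)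
  left_inv v := by
    ext i; fin_cases i <;> (simp [e0]; try ring)
  right_inv v := by
    ext i; fin_cases i <;> (simp [e0]; try ring)
  norm_map' v := by
    have h : ‖v - (2 * v 0) • e0‖ ^ 2 = ‖v‖ ^ 2 := by
      rw [nsq, nsq]; simp [e0]; ring
    have := congrArg Real.sqrt h
    rwa [Real.sqrt_sq (norm_nonneg _), Real.sqrt_sq (norm_nonneg _)] at this

theorem mp_rf (l : ℝ) : MeasurePreserving (rf l) volume volume := by
  have h1 : MeasurePreserving (lin : E3 → E3) volume volume := lin.measurePreserving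
  have h2 : MeasurePreserving (fun v : E3 => v + (2 * l) • e0) volume volume :=
    measurePreserving_add_right volume _
  have h3 := h2.comp h1
  have h4 : MeasurePreserving (Prod.map (id : ℝ → ℝ) ((fun v : E3 => v + (2 * l) • e0) ∘ lin))
      (volume.prod volume) (volume.prod volume) := (MeasurePreserving.id volume).prod h3
  rw [← Measure.volume_eq_prod] at h4
  have h5 : Prod.map (id : ℝ → ℝ) ((fun v : E3 => v + (2 * l) • e0) ∘ lin) = rf l := by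
    funext X
    refine Prod.ext rfl ?_
    show lin X.2 + (2 * l) • e0 = X.2 + (2 * (l - X.2 0)) • e0
    show (X.2 - (2 * X.2 0) • e0) + (2 * l) • e0 = X.2 + (2 * (l - X.2 0)) • e0
    module
  rwa [h5] at h4

/-- `rf l` as a measurable equivalence -/
def rfE (l : ℝ) : (ℝ × E3) ≃ᵐ (ℝ × E3) where
  toFun := rf l
  invFun := rf l
  left_inv := rf_rf l
  right_inv := rf_rf l
  measurable_toFun := (continuous_rf l).measurable
  measurable_invFun := (continuous_rf l).measurable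

theorem integral_comp_rf (l : ℝ) (G : ℝ × E3 → ℝ) : ∫ Y, G (rf l Y) = ∫ Y, G Y :=
  (mp_rf l).integral_comp (rfE l).measurableEmbedding G

theorem integrable_comp_rf (l : ℝ) {G : ℝ × E3 → ℝ} (h : Integrable G) :
    Integrable (fun Y => G (rf l Y)) := (mp_rf l).integrable_comp_of_integrable h

/-- density of `φ` in four dimensions -/
def fA (A : Set (ℝ × ℝ)) (Y : ℝ × E3) : ℝ := (rad ⁻¹' A).indicator (fun Y => ‖Y.2‖⁻¹) Y

theorem fA_nonneg (A : Set (ℝ × ℝ)) (Y : ℝ × E3) : 0 ≤ fA A Y := by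
  unfold fA
  exact indicator_nonneg (fun _ _ => by positivity) _

theorem measurable_fA {A : Set (ℝ × ℝ)} (hA : MeasurableSet A) : Measurable (fA A) := by
  unfold fA
  refine Measurable.indicator ?_ (continuous_rad.measurable hA)
  fun_prop

theorem rep (hK2 : StK2) (hM1 : StM1) {A : Set (ℝ × ℝ)} (hA : MeasurableSet A) (hs : A ⊆ Om)
    (hv : volume A < ∞) (X : ℝ × E3) :
    Integrable (fun Y => fA A Y * (qd X Y)⁻¹) ∧
    ∫ Y, fA A Y * (qd X Y)⁻¹ = 4 * Real.pi ^ 2 * phi A (rad X) := by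
  have hmeas : Measurable (fun Y => fA A Y * (qd X Y)⁻¹) :=
    (measurable_fA hA).mul (continuous_qd X).measurable.inv
  have hnn : ∀ Y, 0 ≤ fA A Y * (qd X Y)⁻¹ := fun Y =>
    mul_nonneg (fA_nonneg A Y) (inv_nonneg.mpr (qd_nonneg X Y))
  have hl : ∫⁻ Y, ENNReal.ofReal (fA A Y * (qd X Y)⁻¹) =
      ENNReal.ofReal (4 * Real.pi ^ 2 * phi A (rad X)) := by
    rw [← hM1 A hA hs hv X, ← lintegral_indicator (continuous_rad.measurable hA)]
    congr 1
    ext Y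
    unfold fA
    by_cases hY : Y ∈ rad ⁻¹' A
    · rw [indicator_of_mem hY, indicator_of_mem hY]
      congr 1
      rw [one_div, mul_inv]
    · rw [indicator_of_notMem hY, indicator_of_notMem hY]
      simp
  have hphi : 0 ≤ phi A (rad X) := (hK2 A hA hs hv (rad X) (norm_nonneg _)).2.1
  constructor
  · refine ⟨hmeas.aestronglyMeasurable, ?_⟩
    rw [hasFiniteIntegral_iff_ofReal (Filter.Eventually.of_forall hnn), hl]
    exact ENNReal.ofReal_lt_top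
  · rw [integral_eq_lintegral_of_nonneg_ae (Filter.Eventually.of_forall hnn)
      hmeas.aestronglyMeasurable, hl, ENNReal.toReal_ofReal (by positivity)]

/-- the difference integrand -/
def J (A : Set (ℝ × ℝ)) (l : ℝ) (X Y : ℝ × E3) : ℝ :=
  (fA A Y - fA A (rf l Y)) * ((qd (rf l X) Y)⁻¹ - (qd X Y)⁻¹)

theorem J_rf (A : Set (ℝ × ℝ)) (l : ℝ) (X Y : ℝ × E3) : J A l X (rf l Y) = J A l X Y := by
  unfold J
  rw [rf_rf, qd_rf_rf]
  have : qd X (rf l Y) = qd (rf l X) Y := by rw [qd_rf, qd_rf']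
  rw [this]
  ring

theorem J_int (hK2 : StK2) (hM1 : StM1) {A : Set (ℝ × ℝ)} (hA : MeasurableSet A) (hs : A ⊆ Om)
    (hv : volume A < ∞) (l : ℝ) (X : ℝ × E3) :
    Integrable (J A l X) ∧
    ∫ Y, J A l X Y = 8 * Real.pi ^ 2 * (phi A (rad (rf l X)) - phi A (rad X)) := by
  obtain ⟨i1, e1⟩ := rep hK2 hM1 hA hs hv X
  obtain ⟨i2, e2⟩ := rep hK2 hM1 hA hs hv (rf l X)
  have i3 := integrable_comp_rf l i1
  have i4 := integrable_comp_rf l i2
  have e3 := integral_comp_rf l (fun Y => fA A Y * (qd X Y)⁻¹)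
  have e4 := integral_comp_rf l (fun Y => fA A Y * (qd (rf l X) Y)⁻¹)
  have hq : ∀ Y, qd X (rf l Y) = qd (rf l X) Y := fun Y => by rw [qd_rf, qd_rf']
  have hJ : J A l X = fun Y => ((fA A Y * (qd (rf l X) Y)⁻¹ - fA A Y * (qd X Y)⁻¹) -
      fA A (rf l Y) * (qd X (rf l Y))⁻¹) + fA A (rf l Y) * (qd (rf l X) (rf l Y))⁻¹ := by
    funext Y
    unfold J
    rw [qd_rf_rf, hq]
    ring
  have i12 : Integrable (fun Y => fA A Y * (qd (rf l X) Y)⁻¹ - fA A Y * (qd X Y)⁻¹) := i2.sub i1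
  have i123 : Integrable (fun Y => (fA A Y * (qd (rf l X) Y)⁻¹ - fA A Y * (qd X Y)⁻¹) -
      fA A (rf l Y) * (qd X (rf l Y))⁻¹) := i12.sub i3
  have i1234 : Integrable (fun Y => ((fA A Y * (qd (rf l X) Y)⁻¹ - fA A Y * (qd X Y)⁻¹) -
      fA A (rf l Y) * (qd X (rf l Y))⁻¹) + fA A (rf l Y) * (qd (rf l X) (rf l Y))⁻¹) :=
    i123.add i4
  rw [hJ]
  refine ⟨i1234, ?_⟩
  rw [integral_add i123 i4, integral_sub i12 i3, integral_sub i2 i1, e1, e2, e3, e4, e1, e2]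
  ring

theorem null_pull (hM0 : StM0) {p : ℝ × ℝ → Prop} (h : ∀ᵐ z, p z) :
    ∀ᵐ X : ℝ × E3, p (rad X) := by
  rw [ae_iff] at h ⊢
  obtain ⟨T, hT1, hT2, hT3⟩ := exists_measurable_superset_of_null h
  have hF : Measurable (T.indicator (fun _ => (1 : ℝ≥0∞))) := measurable_const.indicator hT2
  have h0 := hM0 _ hF
  have h1 : ∫⁻ Y : ℝ × E3, T.indicator (fun _ => (1 : ℝ≥0∞)) (rad Y) = volume (rad ⁻¹' T) := by
    rw [← lintegral_indicator_one (continuous_rad.measurable hT2)]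
    rfl
  have h2 : ∫⁻ y in Om, T.indicator (fun _ => (1 : ℝ≥0∞)) y * ENNReal.ofReal (4 * Real.pi * y.2 ^ 2)
      = 0 := by
    have h3 : ∀ᵐ y ∂(volume.restrict Om), y ∉ T := by
      apply ae_restrict_of_ae
      exact measure_eq_zero_iff_ae_notMem.mp hT3
    rw [lintegral_congr_ae (g := fun _ => 0)]
    · simp
    · filter_upwards [h3] with y hy
      rw [indicator_of_notMem hy, zero_mul]
  rw [h1, h2] at h0
  exact measure_mono_null (fun X hX => hT1 hX) h0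

theorem vol_rad (hM0 : StM0) {A : Set (ℝ × ℝ)} (hA : MeasurableSet A) (hs : A ⊆ Om) :
    volume (rad ⁻¹' A) = ∫⁻ y in A, ENNReal.ofReal (4 * Real.pi * y.2 ^ 2) := by
  have h0 := hM0 (A.indicator (fun _ => (1 : ℝ≥0∞))) (measurable_const.indicator hA)
  have h1 : ∫⁻ Y : ℝ × E3, A.indicator (fun _ => (1 : ℝ≥0∞)) (rad Y) = volume (rad ⁻¹' A) := by
    rw [← lintegral_indicator_one (continuous_rad.measurable hA)]
    rfl
  rw [h1] at h0
  rw [h0]
  have h2 : ∀ y : ℝ × ℝ, A.indicator (fun _ => (1 : ℝ≥0∞)) y * ENNReal.ofReal (4 * Real.pi * y.2 ^ 2)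
      = A.indicator (fun y => ENNReal.ofReal (4 * Real.pi * y.2 ^ 2)) y := by
    intro y
    by_cases hy : y ∈ A
    · rw [indicator_of_mem hy, indicator_of_mem hy, one_mul]
    · rw [indicator_of_notMem hy, indicator_of_notMem hy, zero_mul]
  simp_rw [h2]
  rw [setLIntegral_indicator hA, inter_eq_left.mpr hs]

theorem vol_rad_lt (hM0 : StM0) {A : Set (ℝ × ℝ)} {n : ℝ} (hA : MeasurableSet A)
    (hs : A ⊆ Box n) : volume (rad ⁻¹' A) < ∞ := by
  rw [vol_rad hM0 hA (hs.trans (Box_subset_Om n))]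
  calc ∫⁻ y in A, ENNReal.ofReal (4 * Real.pi * y.2 ^ 2)
      ≤ ∫⁻ y in A, ENNReal.ofReal (4 * Real.pi * n ^ 2) := by
        apply setLIntegral_mono' hA
        intro y hy
        apply ENNReal.ofReal_le_ofReal
        have h1 := (hs hy).2.1
        have h2 := (hs hy).2.2
        have : y.2 ^ 2 ≤ n ^ 2 := by nlinarith
        nlinarith [Real.pi_pos]
    _ = ENNReal.ofReal (4 * Real.pi * n ^ 2) * volume A := by rw [setLIntegral_const]
    _ < ∞ := ENNReal.mul_lt_top ENNReal.ofReal_lt_top (vol_lt_top hs)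

/-- the part of `rad ⁻¹' A` in the lower half space -/
def PS (A : Set (ℝ × ℝ)) : Set (ℝ × E3) := {Y | Y.2 0 ≤ 0 ∧ rad Y ∈ A}

theorem rad_rf0 (Y : ℝ × E3) : rad (rf 0 Y) = rad Y := by
  refine Prod.ext rfl ?_
  show ‖(rf 0 Y).2‖ = ‖Y.2‖
  have h : ‖(rf 0 Y).2‖ ^ 2 = ‖Y.2‖ ^ 2 := by rw [norm_rf]; ring
  have := congrArg Real.sqrt h
  rwa [Real.sqrt_sq (norm_nonneg _), Real.sqrt_sq (norm_nonneg _)] at this

theorem continuous_c0 : Continuous (fun Y : ℝ × E3 => Y.2 0) := by fun_prop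

theorem meas_PS {A : Set (ℝ × ℝ)} (hA : MeasurableSet A) : MeasurableSet (PS A) :=
  (measurableSet_le continuous_c0.measurable measurable_const).inter
    (continuous_rad.measurable hA)

theorem vol_PS_pos (hM0 : StM0) {A : Set (ℝ × ℝ)} (hA : MeasurableSet A)
    (hs : A ⊆ Om) (hp : 0 < volume A) : 0 < volume (PS A) := by
  rw [pos_iff_ne_zero]
  intro h0
  have h1 : volume (rf 0 ⁻¹' PS A) = 0 := by
    rw [(mp_rf 0).measure_preimage (meas_PS hA).nullMeasurableSet, h0]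
  have h2 : rad ⁻¹' A ⊆ PS A ∪ rf 0 ⁻¹' PS A := by
    intro Y hY
    rcases le_total (Y.2 0) 0 with h | h
    · left; exact ⟨h, hY⟩
    · right
      refine ⟨?_, ?_⟩
      · show (rf 0 Y).2 0 ≤ 0
        rw [rf0]; linarith
      · show rad (rf 0 Y) ∈ A
        rw [rad_rf0]; exact hY
  have h3 : volume (rad ⁻¹' A) = 0 := by
    refine measure_mono_null h2 ?_
    rw [measure_union_null_iff]
    exact ⟨h0, h1⟩
  rw [vol_rad hM0 hA hs, lintegral_eq_zero_iff (by fun_prop)] at h3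
  have h4 : ∀ᵐ y ∂(volume.restrict A), False := by
    have h5 : ∀ᵐ y ∂(volume.restrict A), y ∈ A := ae_restrict_mem hA
    filter_upwards [h3, h5] with y hy hy'
    have h6 : (0 : ℝ) < y.2 := hs hy'
    simp only [Pi.zero_apply, ENNReal.ofReal_eq_zero] at hy
    have : 0 < 4 * Real.pi * y.2 ^ 2 := by positivity
    linarith
  rw [ae_iff] at h4
  have h7 : volume A = 0 := by simpa using h4
  exact absurd h7 hp.ne'

/-! ### pointwise bounds -/

theorem K_eq {l : ℝ} {X Y : ℝ × E3} (h1 : X ≠ Y) (h2 : rf l X ≠ Y) :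
    (qd (rf l X) Y)⁻¹ - (qd X Y)⁻¹ =
      4 * (X.2 0 - l) * (l - Y.2 0) / (qd X Y * qd (rf l X) Y) := by
  have q1 := (qd_pos h1).ne'
  have q2 := (qd_pos h2).ne'
  have e : 4 * (X.2 0 - l) * (l - Y.2 0) = qd X Y - qd (rf l X) Y := by rw [qd_rf']; ring
  rw [e]
  field_simp

theorem f_mem {A : Set (ℝ × ℝ)} {Y : ℝ × E3} (h : rad Y ∈ A) : fA A Y = ‖Y.2‖⁻¹ :=
  indicator_of_mem (s := rad ⁻¹' A) h _

theorem f_not {A : Set (ℝ × ℝ)} {Y : ℝ × E3} (h : rad Y ∉ A) : fA A Y = 0 :=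
  indicator_of_notMem (s := rad ⁻¹' A) h _

theorem c0_le_norm (v : E3) : v 0 ≤ ‖v‖ := by
  refine le_trans (le_abs_self _) ?_
  have h : (v 0) ^ 2 ≤ ‖v‖ ^ 2 := by
    rw [nsq]; nlinarith [sq_nonneg (v 1), sq_nonneg (v 2)]
  exact abs_le_of_sq_le_sq h (norm_nonneg _)

/-- `f Y - f (rf Y) ≥ 1/|Y'| - 1/|rf Y'|` if `rad Y ∈ A` -/
theorem fdiff_mem {A : Set (ℝ × ℝ)} {l : ℝ} {Y : ℝ × E3} (h : rad Y ∈ A) :
    ‖Y.2‖⁻¹ - ‖(rf l Y).2‖⁻¹ ≤ fA A Y - fA A (rf l Y) := by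
  rw [f_mem h]
  by_cases h' : rad (rf l Y) ∈ A
  · rw [f_mem h']
  · rw [f_not h']
    have : 0 ≤ ‖(rf l Y).2‖⁻¹ := by positivity
    linarith

theorem norm_lt {l : ℝ} (hl : 0 < l) {Y : ℝ × E3} (hY : Y.2 0 < l) : ‖Y.2‖ < ‖(rf l Y).2‖ := by
  have h := norm_rf l Y
  have h2 : 0 < 4 * l * (l - Y.2 0) := by
    have : 0 < l - Y.2 0 := by linarith
    positivity
  have h3 : ‖Y.2‖ ^ 2 < ‖(rf l Y).2‖ ^ 2 := by linarith
  exact lt_of_pow_lt_pow_left₀ 2 (norm_nonneg _) h3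

theorem K_nonneg {l : ℝ} {X Y : ℝ × E3} (hX : l < X.2 0) (hY : Y.2 0 < l) (h2 : rf l X ≠ Y) :
    0 < (qd (rf l X) Y)⁻¹ - (qd X Y)⁻¹ := by
  have h1 : X ≠ Y := by
    intro h; rw [h] at hX; linarith
  rw [K_eq h1 h2]
  have q1 := qd_pos h1
  have q2 := qd_pos h2
  have : 0 < X.2 0 - l := by linarith
  have : 0 < l - Y.2 0 := by linarith
  positivity

/-- strict positivity near -/
theorem J_pos {A : Set (ℝ × ℝ)} {l : ℝ} (hl : 0 < l) (hs : A ⊆ Om) {X Y : ℝ × E3}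
    (hX : l < X.2 0) (hY : Y.2 0 < l) (h2 : rf l X ≠ Y) (h : rad Y ∈ A) : 0 < J A l X Y := by
  have h0 : 0 < ‖Y.2‖ := hs h
  have h1 := norm_lt hl hY
  have h3 := fdiff_mem (l := l) h
  have h4 : ‖(rf l Y).2‖⁻¹ < ‖Y.2‖⁻¹ := by
    apply inv_strictAnti₀ h0 h1
  exact mul_pos (by linarith) (K_nonneg hX hY h2)

/-- lower bound near: `-(1/l) K` at images of `Dset`, nonnegative elsewhere -/
theorem J_nonneg {A : Set (ℝ × ℝ)} {l : ℝ} (hl : 0 < l) (hs : A ⊆ Om) {X Y : ℝ × E3}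
    (hX : l < X.2 0) (hY : Y.2 0 < l) (h2 : rf l X ≠ Y) (h : rf l Y ∉ Dset A l) :
    0 ≤ J A l X Y := by
  by_cases hA : rad Y ∈ A
  · exact (J_pos hl hs hX hY h2 hA).le
  · have h3 : rad (rf l Y) ∉ A := by
      intro h4
      apply h
      refine ⟨?_, h4, ?_⟩
      · rw [rf0]; linarith
      · rw [rf_rf]; exact hA
    unfold J
    rw [f_not hA, f_not h3]
    simp

theorem ae_ne (X : ℝ × E3) : ∀ᵐ Y : ℝ × E3, X ≠ Y := by
  have h : volume ({X} : Set (ℝ × E3)) = 0 := by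
    rw [Measure.volume_eq_prod]
    exact measure_singleton X
  have h2 := measure_eq_zero_iff_ae_notMem.mp h
  filter_upwards [h2] with Y hY h3
  exact hY (by rw [h3]; rfl)

theorem meas_D {A : Set (ℝ × ℝ)} (hA : MeasurableSet A) (l : ℝ) : MeasurableSet (Dset A l) := by
  have h1 : MeasurableSet {X : ℝ × E3 | l < X.2 0} :=
    measurableSet_lt measurable_const continuous_c0.measurable
  have h2 : MeasurableSet (rad ⁻¹' A) := continuous_rad.measurable hA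
  have h3 : MeasurableSet (rf l ⁻¹' (rad ⁻¹' A)) := (continuous_rf l).measurable h2
  exact h1.inter (h2.inter h3.compl)

end VD.MC
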